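import Mathlib

/-! # Generic overdetermined systems have no solutions: the certificate -/

open Finset MvPolynomial

namespace Pool.Agent.Helper11.ZI

/-- The indices of the coefficients of a polynomial of degree at most `d i` in `T_i`. -/
abbrev Idx {n : ℕ} (d : Fin n → ℕ) : Type := ∀ i, Fin (d i + 1)

section

variable {n k : ℕ} (d : Fin k → Fin n → ℕ) (T : Finset (Fin n))

/-- the exponents which are maximal on `T` and zero elsewhere -/
def topE (l : Fin k) : Idx (d l) := fun i => if i ∈ T then Fin.last _ else 0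

/-- the leading coefficient in the variables of `T` vanishes at `x` -/
def LeadZero {F : Type*} [CommRing F] (c : (Σ l : Fin k, Idx (d l)) → F) (x : Fin n → F) : Prop :=
  ∀ l, ∑ e : Idx (d l) with (∀ i ∈ T, (e i : ℕ) = d l i), c ⟨l, e⟩ * ∏ i ∈ univ \ T, x i ^ (e i : ℕ) = 0

/-- the constant coefficients -/
def PP (j : Σ l : Fin k, Idx (d l)) : Prop := j.2 = topE d T j.1

instance : DecidablePred (PP d T) := fun j => by unfold PP; infer_instance

/-- the target ring -/
abbrev BB : Type := MvPolynomial ({j // ¬ PP d T j} ⊕ {i // i ∉ T}) ℤ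

/-- a coefficient in the target ring, zero if it is a constant one -/
noncomputable def cB (j : Σ l : Fin k, Idx (d l)) : BB d T :=
  if h : PP d T j then 0 else X (Sum.inl ⟨j, h⟩)

/-- the monomial in the target ring -/
noncomputable def xB (i : Fin n) : BB d T := if h : i ∉ T then X (Sum.inr ⟨i, h⟩) else 1

/-- the substitution -/
noncomputable def vB (j : Σ l : Fin k, Idx (d l)) : BB d T :=
  if PP d T j then
    -∑ e : Idx (d j.1) with (∀ i ∈ T, (e i : ℕ) = d j.1 i), cB d T ⟨j.1, e⟩ * ∏ i ∈ univ \ T, xB d T i ^ (e i : ℕ)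
  else cB d T j

lemma card_PP : Fintype.card {j // PP d T j} = k := by
  have e : {j // PP d T j} ≃ Fin k :=
    { toFun := fun j => j.1.1
      invFun := fun l => ⟨⟨l, topE d T l⟩, rfl⟩
      left_inv := by
        rintro ⟨⟨l, e⟩, h⟩
        have h' : e = topE d T l := h
        subst h'
        rfl
      right_inv := fun l => rfl }
  rw [Fintype.card_congr e, Fintype.card_fin]

/-- **the certificate** -/
theorem certificate (hT : (univ \ T).card < k) : ∃ R : MvPolynomial (Σ l : Fin k, Idx (d l)) ℤ, R ≠ 0 ∧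
    ∀ (F : Type) [CommRing F] (c : (Σ l : Fin k, Idx (d l)) → F) (x : Fin n → F),
      LeadZero d T c x → eval₂ (Int.castRingHom F) c R = 0 := by
  classical
  have hex : ∃ R : MvPolynomial (Σ l : Fin k, Idx (d l)) ℤ, R ≠ 0 ∧ aeval (vB d T) R = 0 := by
    by_contra hcon
    push Not at hcon
    have hind : AlgebraicIndependent ℤ (vB d T) := by
      rw [algebraicIndependent_iff]
      intro R hR
      by_contra h
      exact hcon R h hR
    have h1 := hind.cardinalMk_le_trdeg
    rw [MvPolynomial.trdeg_of_isDomain] at h1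
    have h2 : Fintype.card (Σ l : Fin k, Idx (d l)) ≤ Fintype.card ({j // ¬ PP d T j} ⊕ {i // i ∉ T}) := by
      rw [Cardinal.mk_fintype, Cardinal.mk_fintype, Cardinal.lift_natCast] at h1
      exact Nat.cast_le.1 h1
    rw [Fintype.card_sum] at h2
    have h3 : Fintype.card {j // ¬ PP d T j} = Fintype.card (Σ l : Fin k, Idx (d l)) - k := by
      rw [Fintype.card_subtype_compl, card_PP]
    have h4 : Fintype.card {i // i ∉ T} = (univ \ T).card := by
      rw [Fintype.card_subtype]
      congr 1
      ext i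
      simp
    have h5 : k ≤ Fintype.card (Σ l : Fin k, Idx (d l)) := by
      conv_lhs => rw [← card_PP d T]
      exact Fintype.card_subtype_le _
    omega
  obtain ⟨R, hR, hR2⟩ := hex
  refine ⟨R, hR, fun F _ c x hcx => ?_⟩
  set ψ : BB d T →+* F := eval₂Hom (Int.castRingHom F) (Sum.elim (fun j => c j.1) (fun i => x i.1))
    with hψ
  have hcB : ∀ j, ¬ PP d T j → ψ (cB d T j) = c j := by
    intro j hj
    rw [cB, dif_neg hj, hψ, coe_eval₂Hom, eval₂_X]
    rfl
  have hcB0 : ∀ j, PP d T j → ψ (cB d T j) = 0 := by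
    intro j hj
    rw [cB, dif_pos hj, map_zero]
  have hxB : ∀ i, i ∉ T → ψ (xB d T i) = x i := by
    intro i hi
    rw [xB, dif_pos hi, hψ, coe_eval₂Hom, eval₂_X]
    rfl
  have hv : ∀ j, ψ (vB d T j) = c j := by
    intro j
    rw [vB]
    split_ifs with hj
    · obtain ⟨l, e⟩ := j
      have he : e = topE d T l := hj
      subst he
      have h1 := hcx l
      have htop : topE d T l ∈ (univ : Finset (Idx (d l))).filter (fun e => ∀ i ∈ T, (e i : ℕ) = d l i) := by
        rw [mem_filter]
        refine ⟨mem_univ _, fun i hi => ?_⟩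
        simp [topE, hi]
      rw [← add_sum_erase _ _ htop] at h1
      have h2 : ∏ i ∈ univ \ T, x i ^ ((topE d T l) i : ℕ) = 1 := by
        refine prod_eq_one fun i hi => ?_
        have : i ∉ T := (mem_sdiff.1 hi).2
        simp [topE, this]
      rw [h2, mul_one] at h1
      rw [map_neg, map_sum, ← add_sum_erase _ _ htop, map_mul, hcB0 _ hj, zero_mul, zero_add]
      have h3 : ∑ e ∈ ((univ : Finset (Idx (d l))).filter (fun e => ∀ i ∈ T, (e i : ℕ) = d l i)).erase
          (topE d T l), ψ (cB d T ⟨l, e⟩ * ∏ i ∈ univ \ T, xB d T i ^ (e i : ℕ)) =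
          ∑ e ∈ ((univ : Finset (Idx (d l))).filter (fun e => ∀ i ∈ T, (e i : ℕ) = d l i)).erase
          (topE d T l), c ⟨l, e⟩ * ∏ i ∈ univ \ T, x i ^ (e i : ℕ) := by
        refine sum_congr rfl fun e he => ?_
        rw [mem_erase] at he
        rw [map_mul, hcB ⟨l, e⟩ (fun h : e = topE d T l => he.1 h), map_prod]
        congr 1
        refine prod_congr rfl fun i hi => ?_
        rw [map_pow, hxB i (mem_sdiff.1 hi).2]
      rw [h3]
      linear_combination -h1
    · exact hcB j hj
  have h1 := congrArg ψ hR2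
  rw [map_zero, aeval_def, ← coe_eval₂Hom, ← RingHom.comp_apply] at h1
  rw [← h1]
  have : ψ.comp (eval₂Hom (algebraMap ℤ (BB d T)) (vB d T)) = eval₂Hom (Int.castRingHom F) c := by
    apply MvPolynomial.ringHom_ext
    · intro a
      simp
    · intro j
      simp [hv]
  rw [this]
  rfl

end

end Pool.Agent.Helper11.ZI
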