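import Mathlib

/-! # Counting the local events -/

open Finset MvPolynomial

namespace Pool.Agent.Helper11.ZI

/-- a nonzero integral polynomial is nonzero at at least half of the points modulo a large prime -/
theorem card_nonzero {J : Type} [Fintype J] [DecidableEq J] (R : MvPolynomial J ℤ) (hR : R ≠ 0) :
    ∃ P₀ : ℕ, ∀ p : ℕ, p.Prime → P₀ ≤ p → (p : ℝ) ^ Fintype.card J / 2 ≤
      (Nat.card {r : J → ZMod p // eval₂ (Int.castRingHom (ZMod p)) r R ≠ 0} : ℝ) := by
  classical
  obtain ⟨m, hm⟩ : ∃ m, R.coeff m ≠ 0 := by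
    by_contra hcon
    push Not at hcon
    exact hR (MvPolynomial.ext _ _ fun m => by rw [hcon m, coeff_zero])
  refine ⟨max (2 * R.totalDegree + 1) ((R.coeff m).natAbs + 1), fun p hp hpp => ?_⟩
  have : Fact p.Prime := ⟨hp⟩
  have hp1 : 2 * R.totalDegree + 1 ≤ p := (le_max_left _ _).trans hpp
  have hp2 : (R.coeff m).natAbs + 1 ≤ p := (le_max_right _ _).trans hpp
  have hp0 : (0 : ℝ) < p := by exact_mod_cast hp.pos
  set n := Fintype.card J with hn
  set e : J ≃ Fin n := Fintype.equivFin J with he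
  set Rp : MvPolynomial J (ZMod p) := R.map (Int.castRingHom (ZMod p)) with hRp
  have hRp0 : Rp ≠ 0 := by
    intro h
    have h1 := congrArg (fun g => coeff m g) h
    simp only [hRp, coeff_map, coeff_zero, eq_intCast] at h1
    rw [ZMod.intCast_zmod_eq_zero_iff_dvd] at h1
    have h2 : p ∣ (R.coeff m).natAbs := Int.natCast_dvd.1 h1
    have h3 := Nat.le_of_dvd (Int.natAbs_pos.2 hm) h2
    omega
  set Q : MvPolynomial (Fin n) (ZMod p) := rename e Rp with hQ
  have hQ0 : Q ≠ 0 := by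
    intro h
    apply hRp0
    exact rename_injective e e.injective (by rw [map_zero]; exact h)
  have hdeg : Q.totalDegree ≤ R.totalDegree := by
    refine (totalDegree_rename_le e Rp).trans ?_
    exact Finset.sup_mono (support_map_subset _ _)
  have hsz := schwartz_zippel_totalDegree hQ0 (univ : Finset (ZMod p))
  rw [card_univ, ZMod.card] at hsz
  set Z := (Fintype.piFinset fun _ : Fin n => (univ : Finset (ZMod p))).filter (fun f => eval f Q = 0)
    with hZ
  have h1 : ((Z.card : ℝ)) ≤ (p : ℝ) ^ n / 2 := by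
    have h2 : ((Z.card : ℚ≥0) : ℝ) / (p : ℝ) ^ n ≤ (Q.totalDegree : ℝ) / p := by
      have := (NNRat.cast_le (K := ℝ)).2 hsz
      push_cast at this ⊢
      exact this
    have h3 : (Q.totalDegree : ℝ) / p ≤ 1 / 2 := by
      rw [div_le_div_iff₀ hp0 (by norm_num)]
      have : (2 * Q.totalDegree : ℝ) ≤ p := by exact_mod_cast (show 2 * Q.totalDegree ≤ p by omega)
      linarith
    have h4 : (0 : ℝ) < (p : ℝ) ^ n := by positivity
    have h5 := h2.trans h3
    rw [div_le_iff₀ h4] at h5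
    simp only [NNRat.cast_natCast] at h5
    linarith
  -- the complement
  have h6 : Nat.card {r : J → ZMod p // eval₂ (Int.castRingHom (ZMod p)) r R ≠ 0} =
      ((univ : Finset (Fin n → ZMod p)).filter (fun f => ¬ eval f Q = 0)).card := by
    rw [← Fintype.card_subtype, ← Nat.card_eq_fintype_card]
    refine Nat.card_congr (Equiv.subtypeEquiv (Equiv.arrowCongr e (Equiv.refl _)) fun r => ?_)
    have : eval ((Equiv.arrowCongr e (Equiv.refl (ZMod p))) r) Q = eval₂ (Int.castRingHom (ZMod p)) r R := by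
      rw [hQ, eval_rename, hRp, eval_map]
      congr 1
      funext j
      simp [Equiv.arrowCongr]
    rw [this]
  have h7 : Z = (univ : Finset (Fin n → ZMod p)).filter (fun f => eval f Q = 0) := by
    ext f
    rw [hZ, mem_filter, mem_filter]
    simp
  have h8 := card_filter_add_card_filter_not (s := (univ : Finset (Fin n → ZMod p))) (fun f => eval f Q = 0)
  rw [← h7, card_univ, Fintype.card_fun, ZMod.card, Fintype.card_fin] at h8
  rw [h6]
  have h9 : ((Z.card : ℝ)) + (((univ : Finset (Fin n → ZMod p)).filter (fun f => ¬ eval f Q = 0)).card : ℝ)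
      = (p : ℝ) ^ n := by exact_mod_cast h8
  linarith

/-- the local event: a pole at `κ`, no other poles, and the residues avoid the zeros of `R` -/
def evSet {ι : Type} (κ : ι) (R : MvPolynomial {j // j ≠ κ} ℤ) (p : ℕ) : Set (ι → ZMod p × ZMod p) :=
  {x | (x κ).1 ≠ 0 ∧ (x κ).2 = 0 ∧ (∀ j, j ≠ κ → (x j).2 ≠ 0) ∧
    eval₂ (Int.castRingHom (ZMod p)) (fun j : {j // j ≠ κ} => (x j).1 * (x j).2⁻¹) R ≠ 0}

theorem card_evSet {ι : Type} [Fintype ι] [DecidableEq ι] (κ : ι) (R : MvPolynomial {j // j ≠ κ} ℤ)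
    (hR : R ≠ 0) : ∃ c : ℝ, 0 < c ∧ ∃ P₀ : ℕ, ∀ p : ℕ, p.Prime → P₀ ≤ p →
      c / p ≤ (Nat.card (evSet κ R p) : ℝ) / (p : ℝ) ^ (2 * Fintype.card ι) := by
  classical
  obtain ⟨P₀, hP₀⟩ := card_nonzero R hR
  set N := Fintype.card {j // j ≠ κ} with hN
  have hcard : Fintype.card ι = N + 1 := by
    have h1 : N = Fintype.card ι - 1 := by
      rw [hN, Fintype.card_subtype_compl, Fintype.card_subtype_eq]
    have h2 : 0 < Fintype.card ι := Fintype.card_pos_iff.2 ⟨κ⟩
    omega
  refine ⟨(1 / 2) ^ (N + 2), by positivity, P₀, fun p hp hpp => ?_⟩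
  have : Fact p.Prime := ⟨hp⟩
  have hp0 : (0 : ℝ) < p := by exact_mod_cast hp.pos
  have hp2 : (2 : ℝ) ≤ p := by exact_mod_cast hp.two_le
  have hA := hP₀ p hp hpp
  set A := {r : {j // j ≠ κ} → ZMod p // eval₂ (Int.castRingHom (ZMod p)) r R ≠ 0} with hAdef
  let Φ : {a : ZMod p // a ≠ 0} × A × ({j // j ≠ κ} → {a : ZMod p // a ≠ 0}) → evSet κ R p := fun z =>
    ⟨fun j => if h : j = κ then (z.1.1, 0) else (z.2.1.1 ⟨j, h⟩ * (z.2.2 ⟨j, h⟩).1, (z.2.2 ⟨j, h⟩).1), by
      refine ⟨?_, ?_, ?_, ?_⟩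
      · simp only [dif_pos]
        exact z.1.2
      · simp only [dif_pos]
      · intro j hj
        simp only [dif_neg hj]
        exact (z.2.2 ⟨j, hj⟩).2
      · have : (fun j : {j // j ≠ κ} => ((if h : j.1 = κ then ((z.1.1, 0) : ZMod p × ZMod p) else
            (z.2.1.1 ⟨j.1, h⟩ * (z.2.2 ⟨j.1, h⟩).1, (z.2.2 ⟨j.1, h⟩).1)).1 *
            (if h : j.1 = κ then ((z.1.1, 0) : ZMod p × ZMod p) else
            (z.2.1.1 ⟨j.1, h⟩ * (z.2.2 ⟨j.1, h⟩).1, (z.2.2 ⟨j.1, h⟩).1)).2⁻¹)) = z.2.1.1 := by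
          funext j
          simp only [dif_neg j.2]
          rw [mul_assoc, mul_inv_cancel₀ (z.2.2 _).2, mul_one]
        rw [this]
        exact z.2.1.2⟩
  have hinj : Function.Injective Φ := by
    intro z z' h
    have h0 : ∀ j, (Φ z).1 j = (Φ z').1 j := fun j => by rw [h]
    have h1 : z.1 = z'.1 := by
      have := h0 κ
      simp only [Φ, dif_pos] at this
      exact Subtype.ext (congrArg Prod.fst this)
    have h2 : z.2.2 = z'.2.2 := by
      funext j
      have := h0 j.1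
      simp only [Φ, dif_neg j.2] at this
      exact Subtype.ext (congrArg Prod.snd this)
    have h3 : z.2.1 = z'.2.1 := by
      apply Subtype.ext
      funext j
      have := congrArg Prod.fst (h0 j.1)
      simp only [Φ, dif_neg j.2] at this
      rw [h2] at this
      exact mul_right_cancel₀ (z'.2.2 _).2 this
    exact Prod.ext h1 (Prod.ext h3 h2)
  have hle : Nat.card ({a : ZMod p // a ≠ 0} × A × ({j // j ≠ κ} → {a : ZMod p // a ≠ 0})) ≤
      Nat.card (evSet κ R p) := Nat.card_le_card_of_injective Φ hinj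
  have hunits : Nat.card {a : ZMod p // a ≠ 0} = p - 1 := by
    rw [Nat.card_eq_fintype_card, Fintype.card_subtype_compl, Fintype.card_subtype_eq, ZMod.card]
  rw [Nat.card_prod, Nat.card_prod, Nat.card_fun, hunits, Nat.card_eq_fintype_card (α := {j // j ≠ κ}), ← hN] at hle
  have hc : ((p - 1 : ℕ) : ℝ) = (p : ℝ) - 1 := by
    rw [Nat.cast_sub hp.one_le]; simp
  have hle' : ((p : ℝ) - 1) * ((Nat.card A : ℝ) * ((p : ℝ) - 1) ^ N) ≤ (Nat.card (evSet κ R p) : ℝ) := by
    rw [← hc]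
    exact_mod_cast hle
  rw [hcard]
  rw [div_le_div_iff₀ hp0 (by positivity)]
  have hhalf : (p : ℝ) / 2 ≤ (p : ℝ) - 1 := by linarith
  have hpow : ((p : ℝ) / 2) ^ N ≤ ((p : ℝ) - 1) ^ N := pow_le_pow_left₀ (by positivity) hhalf N
  calc (1 / 2 : ℝ) ^ (N + 2) * (p : ℝ) ^ (2 * (N + 1))
      = ((p : ℝ) / 2) * (((p : ℝ) ^ N / 2) * ((p : ℝ) / 2) ^ N) * p := by
        rw [div_pow, div_pow, one_pow]
        field_simp
        ring
    _ ≤ ((p : ℝ) - 1) * ((Nat.card A : ℝ) * ((p : ℝ) - 1) ^ N) * p := by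
        refine mul_le_mul_of_nonneg_right ?_ hp0.le
        refine mul_le_mul hhalf (mul_le_mul hA hpow (by positivity) (by positivity)) (by positivity) (by linarith)
    _ ≤ (Nat.card (evSet κ R p) : ℝ) * p := mul_le_mul_of_nonneg_right hle' hp0.le

end Pool.Agent.Helper11.ZI
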