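import Pool.Agent.Helper11.ZI.Fam

/-! # Densities -/

open Finset MvPolynomial Pool.Agent.Helper11.ZP Pool.Agent.Helper20.ZT

namespace Pool.Agent.Helper11.ZI

open Classical in
/-- random hypersurface sections of a fixed set in general position -/
theorem density_sect {n d : ℕ} {X : Set (Fin n → ℂ)} (hX : GenPos d X) (δ : Fin n → ℕ) :
    Filter.Tendsto (fun H : ℕ => (((qBox (Idx δ) H).filter (fun a => ∀ S : SpecialData n,
        (∀ s, d < (classOf S s).card) → Disjoint {x | x ∈ X ∧ aeval x (polyQ δ a) = 0} S.carrier)).card : ℝ) /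
      ((qBox (Idx δ) H).card : ℝ)) Filter.atTop (nhds 1) := by
  obtain ⟨p₀, hp₀⟩ := exists_goodPlace hX
  refine tendsto_one (τ := Unit) (fun _ a => ∀ p, p.Prime → p₀ ≤ p → res p a ∉ poleSet (0 : Idx δ) p) _ ?_ ?_
  · intro a ha S hS
    have h := ha ()
    push Not at h
    obtain ⟨p, hp, hpp, hmem⟩ := h
    obtain ⟨⟨h1, -⟩, h2⟩ := mem_poleSet.1 hmem
    obtain ⟨hc0, hc1⟩ := pole_cond (d := δ) (a := a) hp h1 (fun e he => (h2 e he).1)
    rw [Set.disjoint_left]
    rintro x ⟨hxX, hxg⟩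
    exact local_disjoint hp (hp₀ p hp hpp) _ hc0 hc1 S hS x hxX hxg
  · intro _ ε hε
    exact density_one (fun p => poleSet (0 : Idx δ) p) (c := (1 / 2 : ℝ) ^ (2 * Fintype.card (Idx δ)))
      (by positivity) p₀ (fun p hp _ => card_poleSet (0 : Idx δ) hp) hε

open Classical in
/-- random complete intersections -/
theorem density_locus {n k : ℕ} (δ : Fin (k + 1) → Fin n → ℕ) :
    Filter.Tendsto (fun H : ℕ => (((qBox (Σ l : Fin (k + 1), Idx (δ l)) H).filter (fun θ => ∀ S : SpecialData n,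
        (∀ s, n < (classOf S s).card + k) → Disjoint (locus δ θ) S.carrier)).card : ℝ) /
      ((qBox (Σ l : Fin (k + 1), Idx (δ l)) H).card : ℝ)) Filter.atTop (nhds 1) := by
  set κ : Σ l : Fin (k + 1), Idx (δ l) := ⟨0, 0⟩ with hκ
  have hcert : ∀ T : Finset (Fin n), ∃ R : MvPolynomial (Σ l : Fin k, Idx (δ l.succ)) ℤ, R ≠ 0 ∧
      ((univ \ T).card < k → ∀ (F : Type) [CommRing F] (c : (Σ l : Fin k, Idx (δ l.succ)) → F) (x : Fin n → F),
        LeadZero (fun l : Fin k => δ l.succ) T c x → eval₂ (Int.castRingHom F) c R = 0) := by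
    intro T
    by_cases hT : (univ \ T).card < k
    · obtain ⟨R, h1, h2⟩ := certificate (fun l : Fin k => δ l.succ) T hT
      exact ⟨R, h1, fun _ => h2⟩
    · exact ⟨1, one_ne_zero, fun h => absurd h hT⟩
  choose R hR0 hR using hcert
  let emb : (Σ l : Fin k, Idx (δ l.succ)) → {j : Σ l : Fin (k + 1), Idx (δ l) // j ≠ κ} := fun j =>
    ⟨⟨j.1.succ, j.2⟩, fun h => absurd (congrArg Sigma.fst h) (Fin.succ_ne_zero j.1)⟩
  have hemb : Function.Injective emb := by
    rintro ⟨l, e⟩ ⟨l', e'⟩ h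
    have h1 : (⟨l.succ, e⟩ : Σ l : Fin (k + 1), Idx (δ l)) = ⟨l'.succ, e'⟩ := congrArg Subtype.val h
    obtain ⟨h2, h3⟩ := Sigma.mk.inj_iff.1 h1
    have h4 : l = l' := Fin.succ_injective _ h2
    subst h4
    rw [eq_of_heq h3]
  set Q : MvPolynomial {j : Σ l : Fin (k + 1), Idx (δ l) // j ≠ κ} ℤ := ∏ T, rename emb (R T) with hQ
  have hQ0 : Q ≠ 0 := by
    refine prod_ne_zero_iff.2 fun T _ h => hR0 T ?_
    exact rename_injective emb hemb (by rw [h, map_zero])
  obtain ⟨c, hc, P₀, hP₀⟩ := card_evSet κ Q hQ0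
  refine tendsto_one (τ := Unit) (fun _ θ => ∀ p, p.Prime → P₀ ≤ p → res p θ ∉ evSet κ Q p) _ ?_ ?_
  · intro θ hθ S hS
    have h := hθ ()
    push Not at h
    obtain ⟨p, hp, hpp, h1, h2, h3, h4⟩ := h
    have hd : ∀ j, (((θ j).den : ℕ) : ZMod p) = 0 ↔ p ∣ (θ j).den := fun j =>
      ZMod.natCast_eq_zero_iff _ _
    refine local_family δ θ hp ((hd κ).1 h2) (fun j hj => fun hcon => h3 j hj ((hd j).2 hcon)) R
      (fun T hT => hR T hT) (fun T hT hcon => h4 ?_) S hS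
    rw [hQ, eval₂_prod]
    refine prod_eq_zero (mem_univ T) ?_
    rw [eval₂_rename]
    exact hcon
  · intro _ ε hε
    exact density_one (fun p => evSet κ Q p) hc P₀ hP₀ hε

end Pool.Agent.Helper11.ZI
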