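import Pool.Agent.Helper11.ZI.Local
import Pool.Agent.Helper11.ZI.Cert
import Pool.Agent.Helper11.ZI.Cnt

/-! # Random complete intersections without isogenous coordinates -/

open Finset MvPolynomial Pool.Agent.Helper11.ZP Pool.Agent.Helper20.ZT

namespace Pool.Agent.Helper11.ZI

/-- the exponent vector of an index -/
noncomputable def expo {n : ℕ} {d : Fin n → ℕ} (e : Idx d) : Fin n →₀ ℕ :=
  Finsupp.equivFunOnFinite.symm fun i => (e i : ℕ)

/-- The polynomial of degree at most `d i` in `T_i` with the rational coefficients `a`. -/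
noncomputable def polyQ {n : ℕ} (d : Fin n → ℕ) (a : Idx d → ℚ) : MvPolynomial (Fin n) ℚ :=
  ∑ e, monomial (expo e) (a e)

lemma expo_injective {n : ℕ} {d : Fin n → ℕ} : Function.Injective (expo (d := d)) := by
  intro e e' h
  funext i
  have := DFunLike.congr_fun h i
  exact Fin.ext this

lemma expo_zero {n : ℕ} {d : Fin n → ℕ} : expo (d := d) (0 : Idx d) = 0 := by
  ext i
  rfl

lemma coeff_polyQ {n : ℕ} (d : Fin n → ℕ) (a : Idx d → ℚ) (e : Idx d) :
    (polyQ d a).coeff (expo e) = a e := by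
  classical
  rw [polyQ, coeff_sum, Finset.sum_eq_single e]
  · rw [coeff_monomial, if_pos rfl]
  · intro e' _ h
    rw [coeff_monomial, if_neg fun h2 => h (expo_injective h2)]
  · intro h
    exact absurd (mem_univ _) h

lemma coeff_polyQ_of_notMem {n : ℕ} (d : Fin n → ℕ) (a : Idx d → ℚ) (m : Fin n →₀ ℕ)
    (hm : ∀ e : Idx d, expo e ≠ m) : (polyQ d a).coeff m = 0 := by
  classical
  rw [polyQ, coeff_sum]
  refine Finset.sum_eq_zero fun e _ => ?_
  rw [coeff_monomial, if_neg (hm e)]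

lemma aeval_polyQ {n : ℕ} (d : Fin n → ℕ) (a : Idx d → ℚ) (x : Fin n → ℂ) :
    aeval x (polyQ d a) = ∑ e, (a e : ℂ) * ∏ i, x i ^ (e i : ℕ) := by
  rw [polyQ, map_sum]
  refine sum_congr rfl fun e _ => ?_
  rw [aeval_monomial, eq_ratCast, Finsupp.prod_fintype _ _ (fun i => pow_zero _)]
  rfl

/-- a pole of the constant coefficient -/
lemma pole_cond {n : ℕ} {d : Fin n → ℕ} {a : Idx d → ℚ} {p : ℕ} (hp : p.Prime) (h0 : p ∣ (a 0).den)
    (h1 : ∀ e, e ≠ 0 → ¬ p ∣ (a e).den) : p ∣ ((polyQ d a).coeff 0).den ∧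
      ∀ m, m ≠ 0 → ¬ p ∣ ((polyQ d a).coeff m).den := by
  constructor
  · rw [← expo_zero (d := d), coeff_polyQ]
    exact h0
  · intro m hm
    by_cases h : ∃ e : Idx d, expo e = m
    · obtain ⟨e, rfl⟩ := h
      rw [coeff_polyQ]
      refine h1 e fun he => hm ?_
      rw [he, expo_zero]
    · rw [coeff_polyQ_of_notMem d a m fun e he => h ⟨e, he⟩]
      intro h2
      exact hp.one_lt.ne' (Nat.dvd_one.1 (by simpa using h2))

/-- The locus of common zeros in `Y(1)ⁿ` of the polynomials with the coefficients `θ`. -/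
def locus {n k : ℕ} (d : Fin k → Fin n → ℕ) (θ : (Σ l : Fin k, Idx (d l)) → ℚ) : Set (Fin n → ℂ) :=
  {x | ∀ l, aeval x (polyQ (d l) fun e => θ ⟨l, e⟩) = 0}

section residue

variable (O : ValuationSubring ℂ) {p : ℕ}

open Classical in
/-- the reduction of a point, zero at the coordinates which are not integral -/
noncomputable def redPt {n : ℕ} (x : Fin n → ℂ) (i : Fin n) : IsLocalRing.ResidueField O :=
  if h : x i ∈ O then IsLocalRing.residue O ⟨x i, h⟩ else 0

/-- the residue of a rational number -/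
noncomputable def rr (p : ℕ) (q : ℚ) : ZMod p := ((q.num : ℤ) : ZMod p) * ((q.den : ℕ) : ZMod p)⁻¹

open Classical in
lemma lead_residue [CharP (IsLocalRing.ResidueField O) p] (hp : p.Prime) (hpO : (p : ℂ) ∈ O.nonunits)
    {n : ℕ} (d : Fin n → ℕ) (a : Idx d → ℚ) (ha : ∀ e, ¬ p ∣ (a e).den) (x : Fin n → ℂ)
    (h : aeval x (polyQ d a) = 0) :
    ∑ e : Idx d with (∀ i ∈ (univ.filter fun i => x i ∉ O), (e i : ℕ) = d i),
      ZMod.castHom (dvd_refl p) (IsLocalRing.ResidueField O) (rr p (a e)) *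
        ∏ i ∈ univ \ (univ.filter fun i => x i ∉ O), redPt O x i ^ (e i : ℕ) = 0 := by
  set T : Finset (Fin n) := univ.filter fun i => x i ∉ O with hT
  have hTm : ∀ i, i ∈ T ↔ x i ∉ O := fun i => by rw [hT, mem_filter]; simp
  choose z hz1 hz2 using fun e => red_rat O hp hpO (ha e)
  have hinv : ∀ i, x i ∉ O → (x i)⁻¹ ∈ O := fun i hi => (O.mem_or_inv_mem (x i)).resolve_left hi
  set w : Fin n → O := fun i => if h : x i ∈ O then ⟨x i, h⟩ else ⟨(x i)⁻¹, hinv i h⟩ with hw
  have hw1 : ∀ i, x i ∈ O → (w i : ℂ) = x i := fun i hi => by simp only [hw, dif_pos hi]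
  have hw2 : ∀ i, x i ∉ O → (w i : ℂ) = (x i)⁻¹ := fun i hi => by simp only [hw, dif_neg hi]
  have hres : ∀ i, x i ∉ O → IsLocalRing.residue O (w i) = 0 := by
    intro i hi
    rw [IsLocalRing.residue_eq_zero_iff, O.valuation_lt_one_iff, hw2 i hi, map_inv₀]
    exact inv_lt_one_of_one_lt₀ (one_lt_of_notMem O hi)
  have hres' : ∀ i, x i ∈ O → IsLocalRing.residue O (w i) = redPt O x i := by
    intro i hi
    rw [redPt, dif_pos hi]
    congr 1
    exact Subtype.ext (hw1 i hi)
  set g : Idx d → Fin n → ℕ := fun e i => if x i ∈ O then (e i : ℕ) else d i - e i with hg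
  have hsumO : ∑ e, z e * ∏ i, w i ^ g e i = 0 := by
    apply Subtype.ext
    push_cast
    have h1 : ∀ e : Idx d, (z e : ℂ) * ∏ i, (w i : ℂ) ^ g e i =
        ((a e : ℂ) * ∏ i, x i ^ (e i : ℕ)) * ∏ i, (if x i ∈ O then 1 else ((x i)⁻¹) ^ d i) := by
      intro e
      rw [hz1, mul_assoc, ← prod_mul_distrib]
      congr 1
      refine prod_congr rfl fun i _ => ?_
      by_cases hi : x i ∈ O
      · simp only [hg, if_pos hi, hw1 i hi, mul_one]
      · simp only [hg, if_neg hi, hw2 i hi]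
        have hx0 : x i ≠ 0 := fun h0 => hi (by rw [h0]; exact zero_mem _)
        have hle : (e i : ℕ) ≤ d i := Nat.lt_succ_iff.1 (e i).2
        have h2 : ((x i)⁻¹) ^ d i = ((x i)⁻¹) ^ (d i - (e i : ℕ)) * ((x i)⁻¹) ^ (e i : ℕ) := by
          rw [← pow_add, Nat.sub_add_cancel hle]
        rw [h2, mul_comm (x i ^ (e i : ℕ)), mul_assoc, ← mul_pow, inv_mul_cancel₀ hx0, one_pow, mul_one]
    rw [sum_congr rfl fun e _ => h1 e, ← sum_mul, ← aeval_polyQ, h, zero_mul]
  have h2 := congrArg (IsLocalRing.residue O) hsumO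
  rw [map_sum, map_zero] at h2
  rw [← h2, sum_filter]
  refine sum_congr rfl fun e _ => ?_
  rw [map_mul, map_prod, hz2]
  simp only [map_pow]
  split_ifs with he
  · congr 1
    rw [← prod_sdiff (subset_univ T)]
    have h3 : ∏ i ∈ T, IsLocalRing.residue O (w i) ^ g e i = 1 := by
      refine prod_eq_one fun i hi => ?_
      have hi' := (hTm i).1 hi
      simp only [hg, if_neg hi', he i hi, Nat.sub_self, pow_zero]
    rw [h3, mul_one]
    refine prod_congr rfl fun i hi => ?_
    have hi' : x i ∈ O := by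
      by_contra hcon
      exact (mem_sdiff.1 hi).2 ((hTm i).2 hcon)
    simp only [hg, if_pos hi']
    rw [hres' i hi']
  · push Not at he
    obtain ⟨i, hi, hne⟩ := he
    have hi' := (hTm i).1 hi
    have h3 : ∏ i, IsLocalRing.residue O (w i) ^ g e i = 0 := by
      refine prod_eq_zero (mem_univ i) ?_
      rw [hres i hi']
      have : g e i ≠ 0 := by
        simp only [hg, if_neg hi']
        have hle : (e i : ℕ) ≤ d i := Nat.lt_succ_iff.1 (e i).2
        omega
      exact zero_pow this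
    rw [h3, mul_zero]

end residue

/-- every prime has a place of `ℂ` above it -/
lemma exists_place_C {p : ℕ} (hp : p.Prime) : ∃ O : ValuationSubring ℂ, (p : ℂ) ∈ O.nonunits := by
  obtain ⟨O, hO, _⟩ := exists_valuationSubring hp (K := ℂ) (ι := Empty) (fun i => i.elim)
    ((algebraicIndependent_empty_type_iff (R := ℤ) (A := ℂ)).2 (algebraMap ℤ ℂ).injective_int)
  exact ⟨O, hO⟩

open Classical in
/-- **the local argument for a random complete intersection** -/
theorem local_family {n k : ℕ} (d : Fin (k + 1) → Fin n → ℕ) (θ : (Σ l : Fin (k + 1), Idx (d l)) → ℚ)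
    {p : ℕ} (hp : p.Prime) (h0 : p ∣ (θ ⟨0, 0⟩).den) (hden : ∀ j, j ≠ ⟨0, 0⟩ → ¬ p ∣ (θ j).den)
    (R : Finset (Fin n) → MvPolynomial (Σ l : Fin k, Idx (d l.succ)) ℤ)
    (hR : ∀ T, (univ \ T).card < k →
      ∀ (F : Type) [CommRing F] (c : (Σ l : Fin k, Idx (d l.succ)) → F) (x : Fin n → F),
      LeadZero (fun l : Fin k => d l.succ) T c x → eval₂ (Int.castRingHom F) c (R T) = 0)
    (hR2 : ∀ T, (univ \ T).card < k → eval₂ (Int.castRingHom (ZMod p))
      (fun j : Σ l : Fin k, Idx (d l.succ) => rr p (θ ⟨j.1.succ, j.2⟩)) (R T) ≠ 0)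
    (S : SpecialData n) (hS : ∀ s, n < (classOf S s).card + k) : Disjoint (locus d θ) S.carrier := by
  rw [Set.disjoint_left]
  intro x hx hxS
  obtain ⟨O, hpO⟩ := exists_place_C hp
  have hchar : CharP (IsLocalRing.ResidueField O) p := charP_residue O hp hpO
  have hne : ∀ e : Idx (d 0), e ≠ 0 → (⟨0, e⟩ : Σ l : Fin (k + 1), Idx (d l)) ≠ ⟨0, 0⟩ := by
    intro e he h
    exact he (eq_of_heq (Sigma.mk.inj_iff.1 h).2)
  obtain ⟨hc0, hc1⟩ := pole_cond (d := d 0) (a := fun e => θ ⟨0, e⟩) hp h0 (fun e he => hden _ (hne e he))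
  obtain ⟨i, hi⟩ := exists_notMem_of_pole O hp hpO _ hc0 hc1 x (hx 0)
  obtain ⟨s, -, hs⟩ := class_of_notMem O S hxS hi
  set T : Finset (Fin n) := univ.filter fun i => x i ∉ O with hT
  have hsub : classOf S s ⊆ T := fun j hj => by
    rw [hT, mem_filter]
    exact ⟨mem_univ _, hs j hj⟩
  have hcard : (univ \ T).card < k := by
    have h1 := card_le_card hsub
    have h2 := hS s
    have h3 : (univ \ T).card = n - T.card := by
      rw [card_sdiff_of_subset (subset_univ T), card_univ, Fintype.card_fin]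
    have h4 : T.card ≤ n := by simpa using card_le_univ T
    omega
  apply hR2 T hcard
  have h1 := hR T hcard (IsLocalRing.ResidueField O)
    (fun j => ZMod.castHom (dvd_refl p) (IsLocalRing.ResidueField O) (rr p (θ ⟨j.1.succ, j.2⟩)))
    (redPt O x) (fun l => by
      have h2 := lead_residue O hp hpO (d l.succ) (fun e => θ ⟨l.succ, e⟩)
        (fun e => hden _ (fun h => absurd (congrArg Sigma.fst h) (Fin.succ_ne_zero l))) x (hx l.succ)
      rw [← hT] at h2
      convert h2)
  have h2 : eval₂ (Int.castRingHom (IsLocalRing.ResidueField O))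
      (fun j : Σ l : Fin k, Idx (d l.succ) =>
        ZMod.castHom (dvd_refl p) (IsLocalRing.ResidueField O) (rr p (θ ⟨j.1.succ, j.2⟩))) (R T) =
      ZMod.castHom (dvd_refl p) (IsLocalRing.ResidueField O) (eval₂ (Int.castRingHom (ZMod p))
        (fun j : Σ l : Fin k, Idx (d l.succ) => rr p (θ ⟨j.1.succ, j.2⟩)) (R T)) := by
    have h3 := eval₂_comp_left (ZMod.castHom (dvd_refl p) (IsLocalRing.ResidueField O))
      (Int.castRingHom (ZMod p)) (fun j : Σ l : Fin k, Idx (d l.succ) => rr p (θ ⟨j.1.succ, j.2⟩)) (R T)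
    rw [h3]
    congr 1
    exact RingHom.ext_int _ _
  rw [h2] at h1
  have : Fact p.Prime := ⟨hp⟩
  exact (map_eq_zero _).1 h1

end Pool.Agent.Helper11.ZI
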