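import Pool.Agent.Helper20.ZT.Defs
import Pool.Agent.Helper91.ZT.Place
import Pool.Agent.Helper11.ZP.Almost
import Pool.Agent.Helper11.ZP.Residue

/-! # Isogenous coordinates on hypersurface sections: the local argument -/

open Finset MvPolynomial Pool.Agent.Helper11.ZP Pool.Agent.Helper20.ZT

namespace Pool.Agent.Helper11.ZI

/-- the coordinates in the class `s` -/
def classOf {n : ℕ} (S : SpecialData n) (s : Fin S.r) : Finset (Fin n) :=
  univ.filter fun i => S.cls i = some s

section

variable {K : Type*} [Field K] (O : ValuationSubring K)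

lemma one_lt_of_notMem {x : K} (hx : x ∉ O) : 1 < O.valuation x := by
  rw [← O.valuation_le_one_iff] at hx
  exact not_le.1 hx

/-- a polynomial whose top monomial has a unit coefficient does not vanish at a point at which its
variables are not integral -/
lemma eval_ne_zero_of_top {n : ℕ} {J : Finset (Fin n)} (f : MvPolynomial (Fin n) K)
    (hvars : f.vars ⊆ J) (hco : ∀ m, f.coeff m ∈ O)
    (htop : O.valuation (f.coeff (Finsupp.equivFunOnFinite.symm fun i => f.degreeOf i)) = 1)
    (x : Fin n → K) (hx : ∀ i ∈ J, x i ∉ O) : eval x f ≠ 0 := by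
  classical
  set t : Fin n →₀ ℕ := Finsupp.equivFunOnFinite.symm fun i => f.degreeOf i with ht
  have hti : ∀ i, t i = f.degreeOf i := fun i => rfl
  have hout : ∀ i, i ∉ J → f.degreeOf i = 0 := by
    intro i hi
    by_contra hcon
    exact hi (hvars (mem_vars_iff_degreeOf_ne_zero.2 hcon))
  have hx1 : ∀ i ∈ J, 1 < O.valuation (x i) := fun i hi => one_lt_of_notMem O (hx i hi)
  set M := ∏ i, O.valuation (x i) ^ t i with hM
  have hfac : ∀ i, O.valuation (x i) ^ t i ≠ 0 := by
    intro i
    by_cases hi : i ∈ J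
    · exact pow_ne_zero _ (ne_of_gt (lt_trans zero_lt_one (hx1 i hi)))
    · rw [hti, hout i hi, pow_zero]; exact one_ne_zero
  have hM0 : M ≠ 0 := prod_ne_zero_iff.2 fun i _ => hfac i
  have hle : ∀ m ∈ f.support, ∀ i, O.valuation (x i) ^ m i ≤ O.valuation (x i) ^ t i := by
    intro m hm i
    have h1 : m i ≤ t i := by rw [hti]; exact monomial_le_degreeOf i hm
    by_cases hi : i ∈ J
    · exact pow_le_pow_right₀ (hx1 i hi).le h1
    · have h2 : m i = 0 := by rw [hti, hout i hi] at h1; omega
      rw [h2, hti, hout i hi]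
  have hlt : ∀ m ∈ f.support, m ≠ t → ∏ i, O.valuation (x i) ^ m i < M := by
    intro m hm hne
    obtain ⟨i, hi⟩ : ∃ i, m i ≠ t i := by
      by_contra hcon
      push Not at hcon
      exact hne (Finsupp.ext hcon)
    have h1 : m i ≤ t i := by rw [hti]; exact monomial_le_degreeOf i hm
    have hiJ : i ∈ J := by
      by_contra hcon
      have := hout i hcon
      rw [← hti] at this
      omega
    rw [hM, ← mul_prod_erase univ (fun i => O.valuation (x i) ^ m i) (mem_univ i),
      ← mul_prod_erase univ (fun i => O.valuation (x i) ^ t i) (mem_univ i)]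
    refine lt_of_le_of_lt (mul_le_mul' le_rfl (prod_le_prod' fun j _ => hle m hm j)) ?_
    exact mul_lt_mul_of_pos_right (pow_lt_pow_right₀ (hx1 i hiJ) (by omega))
      (zero_lt_iff.2 (prod_ne_zero_iff.2 fun j _ => hfac j))
  have htm : t ∈ f.support := by
    rw [mem_support_iff]
    intro h
    rw [h, map_zero] at htop
    exact zero_ne_one htop
  intro h0
  rw [eval_eq', ← add_sum_erase _ _ htm] at h0
  have h1 : O.valuation (f.coeff t * ∏ i, x i ^ t i) = M := by
    rw [map_mul, htop, one_mul, map_prod]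
    simp only [map_pow]
    rfl
  have h2 : O.valuation (∑ m ∈ f.support.erase t, f.coeff m * ∏ i, x i ^ m i) < M := by
    refine Valuation.map_sum_lt _ hM0 fun m hm => ?_
    rw [mem_erase] at hm
    rw [map_mul, map_prod]
    simp only [map_pow]
    refine lt_of_le_of_lt (mul_le_mul' ((O.valuation_le_one_iff _).2 (hco m)) le_rfl) ?_
    rw [one_mul]
    exact hlt m hm.2 hm.1
  have h3 : f.coeff t * ∏ i, x i ^ t i = -∑ m ∈ f.support.erase t, f.coeff m * ∏ i, x i ^ m i := by
    linear_combination h0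
  rw [h3, Valuation.map_neg] at h1
  exact absurd h1 (ne_of_lt h2)

/-- if `p` divides the denominator of the constant coefficient of `g` only, then every zero of `g`
has a coordinate which is not integral -/
lemma exists_notMem_of_pole [CharZero K] {p : ℕ} (hp : p.Prime) (hpO : (p : K) ∈ O.nonunits) {n : ℕ}
    (g : MvPolynomial (Fin n) ℚ) (hg0 : p ∣ (g.coeff 0).den) (hg : ∀ m, m ≠ 0 → ¬ p ∣ (g.coeff m).den)
    (x : Fin n → K) (hx : aeval x g = 0) : ∃ i, x i ∉ O := by
  classical
  by_contra hcon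
  push Not at hcon
  have hx1 : ∀ i, O.valuation (x i) ≤ 1 := fun i => (O.valuation_le_one_iff _).2 (hcon i)
  have h0 : (0 : Fin n →₀ ℕ) ∈ g.support := by
    rw [mem_support_iff]
    intro h
    rw [h] at hg0
    exact hp.one_lt.ne' (Nat.dvd_one.1 (by simpa using hg0))
  rw [aeval_def, eval₂_eq, ← add_sum_erase _ _ h0] at hx
  have h1 : (algebraMap ℚ K) (g.coeff 0) * ∏ i ∈ (0 : Fin n →₀ ℕ).support, x i ^ (0 : Fin n →₀ ℕ) i
      = ((g.coeff 0 : ℚ) : K) := by simp
  rw [h1] at hx
  have h2 : O.valuation (∑ m ∈ g.support.erase 0, (algebraMap ℚ K) (g.coeff m) * ∏ i ∈ m.support, x i ^ m i) ≤ 1 := by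
    refine Valuation.map_sum_le _ fun m hm => ?_
    rw [mem_erase] at hm
    rw [map_mul, map_prod]
    simp only [map_pow]
    have h3 : O.valuation ((algebraMap ℚ K) (g.coeff m)) ≤ 1 := by
      rw [eq_ratCast]
      exact val_rat_le O hp hpO (hg m hm.1)
    exact mul_le_one' h3 (prod_le_one' fun i _ => pow_le_one' (hx1 i) _)
  have h3 := val_rat_gt O hp hpO hg0
  have h4 : ((g.coeff 0 : ℚ) : K) = -∑ m ∈ g.support.erase 0, (algebraMap ℚ K) (g.coeff m) *
      ∏ i ∈ m.support, x i ^ m i := by linear_combination hx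
  rw [h4, Valuation.map_neg] at h3
  exact absurd h3 (not_lt.2 h2)

end

/-- integrality is the same for two coordinates in the same class -/
lemma mem_of_class {n : ℕ} (O : ValuationSubring ℂ) (S : SpecialData n) {x : Fin n → ℂ}
    (hx : x ∈ S.carrier) {i j : Fin n} {s : Fin S.r} (hi : S.cls i = some s) (hj : S.cls j = some s)
    (h : x j ∈ O) : x i ∈ O := by
  obtain ⟨P, hP, hP2⟩ := exists_rel_poly S hi hj
  refine mem_of_rel O hP h ?_
  have h1 := hP2 x hx
  rw [Polynomial.hom_eval₂, eval_X] at h1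
  have e2 : (eval x).comp (Polynomial.eval₂RingHom
      ((C : ℂ →+* MvPolynomial (Fin n) ℂ).comp (algebraMap OO ℂ)) (X j)) =
      Polynomial.eval₂RingHom ((algebraMap ℂ ℂ).comp (algebraMap OO ℂ)) (x j) := by
    apply Polynomial.ringHom_ext
    · intro a
      simp
    · simp
  rw [e2] at h1
  exact h1

/-- a nonintegral coordinate lies in a class, all of whose coordinates are not integral -/
lemma class_of_notMem {n : ℕ} (O : ValuationSubring ℂ) (S : SpecialData n) {x : Fin n → ℂ}
    (hx : x ∈ S.carrier) {i : Fin n} (hi : x i ∉ O) :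
    ∃ s, S.cls i = some s ∧ ∀ j ∈ classOf S s, x j ∉ O := by
  rcases h : S.cls i with _ | s
  · exfalso
    apply hi
    rw [hx.1 i h]
    exact mem_of_isIntegral_int O (S.hc i h).isIntegral
  · refine ⟨s, rfl, fun j hj => fun hcon => hi ?_⟩
    rw [classOf, mem_filter] at hj
    exact mem_of_class O S hx h hj.2 hcon

/-- a place at which a set in general position at the cusps remains so -/
def GoodPlace {n : ℕ} (d : ℕ) (X : Set (Fin n → ℂ)) (p : ℕ) : Prop :=
  ∃ O : ValuationSubring ℂ, (p : ℂ) ∈ O.nonunits ∧ ∀ J : Finset (Fin n), J.card = d + 1 →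
    ∃ f : MvPolynomial (Fin n) ℂ, f.vars ⊆ J ∧ (∀ m, f.coeff m ∈ O) ∧
      O.valuation (f.coeff (Finsupp.equivFunOnFinite.symm fun i => f.degreeOf i)) = 1 ∧
      ∀ z ∈ X, eval z f = 0

/-- **the local argument** -/
theorem local_disjoint {n d : ℕ} {X : Set (Fin n → ℂ)} {p : ℕ} (hp : p.Prime) (hX : GoodPlace d X p)
    (g : MvPolynomial (Fin n) ℚ) (hg0 : p ∣ (g.coeff 0).den) (hg : ∀ m, m ≠ 0 → ¬ p ∣ (g.coeff m).den)
    (S : SpecialData n) (hS : ∀ s, d < (classOf S s).card) (x : Fin n → ℂ) (hxX : x ∈ X)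
    (hxg : aeval x g = 0) : x ∉ S.carrier := by
  intro hxS
  obtain ⟨O, hpO, hO⟩ := hX
  obtain ⟨i, hi⟩ := exists_notMem_of_pole O hp hpO g hg0 hg x hxg
  obtain ⟨s, -, hs⟩ := class_of_notMem O S hxS hi
  obtain ⟨J, hJs, hJ⟩ := exists_subset_card_eq (show d + 1 ≤ (classOf S s).card from hS s)
  obtain ⟨f, hf1, hf2, hf3, hf4⟩ := hO J hJ
  exact eval_ne_zero_of_top O f hf1 hf2 hf3 x (fun j hj => hs j (hJs hj)) (hf4 x hxX)

/-- general position at the cusps persists at all large primes -/
theorem exists_goodPlace {n d : ℕ} {X : Set (Fin n → ℂ)} (hX : GenPos d X) :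
    ∃ p₀ : ℕ, ∀ p : ℕ, p.Prime → p₀ ≤ p → GoodPlace d X p := by
  classical
  choose f0 hf0 using hX
  set f : Finset (Fin n) → MvPolynomial (Fin n) ℂ := fun J => if h : J.card = d + 1 then f0 J h else 0
    with hfdef
  set top : Finset (Fin n) → ℂ := fun J =>
    (f J).coeff (Finsupp.equivFunOnFinite.symm fun i => (f J).degreeOf i) with htop
  set s : Finset ℂ := (univ.biUnion fun J : Finset (Fin n) => (f J).support.image (f J).coeff) ∪
    (univ.image fun J : Finset (Fin n) => (top J)⁻¹) with hs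
  obtain ⟨p₀, hp₀⟩ := Helper91.ZT.exists_place s 1 one_ne_zero
  refine ⟨p₀, fun p hp hpp => ?_⟩
  obtain ⟨O, hO1, hO2, -, -⟩ := hp₀ p hp hpp
  refine ⟨O, hO1, fun J hJ => ⟨f J, ?_, ?_, ?_, ?_⟩⟩
  · simp only [hfdef, dif_pos hJ]
    exact (hf0 J hJ).1.vars
  · intro m
    by_cases hm : m ∈ (f J).support
    · refine hO2 _ ?_
      simp only [hs, mem_union, mem_biUnion, mem_image, mem_univ, true_and]
      exact Or.inl ⟨J, m, hm, rfl⟩
    · rw [notMem_support_iff.1 hm]; exact zero_mem _
  · have h0 : top J ≠ 0 := by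
      simp only [htop, hfdef, dif_pos hJ]
      exact (hf0 J hJ).1.top
    have h1 : O.valuation (top J) ≤ 1 := by
      rw [O.valuation_le_one_iff]
      by_cases hm : (Finsupp.equivFunOnFinite.symm fun i => (f J).degreeOf i) ∈ (f J).support
      · refine hO2 _ ?_
        simp only [hs, mem_union, mem_biUnion, mem_image, mem_univ, true_and]
        exact Or.inl ⟨J, _, hm, rfl⟩
      · have : top J = 0 := notMem_support_iff.1 hm
        exact absurd this h0
    have h2 : O.valuation (top J)⁻¹ ≤ 1 := by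
      rw [O.valuation_le_one_iff]
      refine hO2 _ ?_
      simp only [hs, mem_union, mem_biUnion, mem_image, mem_univ, true_and]
      exact Or.inr ⟨J, rfl⟩
    have h3 : O.valuation (top J) * O.valuation (top J)⁻¹ = 1 := by
      rw [← map_mul, mul_inv_cancel₀ h0, map_one]
    refine le_antisymm h1 ?_
    calc (1 : O.ValueGroup) = O.valuation (top J) * O.valuation (top J)⁻¹ := h3.symm
      _ ≤ O.valuation (top J) * 1 := mul_le_mul' le_rfl h2
      _ = O.valuation (top J) := mul_one _
  · intro z hz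
    simp only [hfdef, dif_pos hJ]
    exact (hf0 J hJ).2 z hz

end Pool.Agent.Helper11.ZI
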